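import Mathlib

/-!
# MP_3c4d8f_co: the minimum degree is at most the lower PSD forcing irredundance number

We prove `δ(G) ≤ z₊ir(G)` for every finite simple graph.
-/

namespace Pool.Agent.Results.MP_3c4d8f_co.MinDegreeLeZir

open Finset

section Definitions

variable {V : Type*}

/-- A PSD fort of `G`: a nonempty set `F` such that no vertex outside `F` has exactly one
neighbour in a connected component of `G[F]`. -/
def IsPSDFort (G : SimpleGraph V) (F : Set V) : Prop :=
  F.Nonempty ∧ ∀ v, v ∉ F → ∀ W : (G.induce F).ConnectedComponent,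
    (G.neighborSet v ∩ (Subtype.val '' W.supp)).ncard ≠ 1

/-- `F` is a private PSD fort of `u` relative to `S`. -/
def IsPrivateFort (G : SimpleGraph V) (S : Set V) (u : V) (F : Set V) : Prop :=
  IsPSDFort G F ∧ S ∩ F = {u}

/-- `S` is a `Z₊Ir`-set: every element of `S` has a private PSD fort relative to `S`. -/
def IsZIrSet (G : SimpleGraph V) (S : Set V) : Prop :=
  ∀ u ∈ S, ∃ F : Set V, IsPrivateFort G S u F

/-- The lower PSD forcing irredundance number: the least size of an inclusion-maximal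
`Z₊Ir`-set. -/
noncomputable def zir (G : SimpleGraph V) : ℕ :=
  sInf {k : ℕ | ∃ S : Set V, Maximal (IsZIrSet G) S ∧ S.ncard = k}

end Definitions

section Core

variable {V : Type*} [Fintype V] [DecidableEq V]

open Classical in
/-- outer neighbourhood of a vertex set -/
noncomputable def nb (G : SimpleGraph V) (X : Finset V) : Finset V :=
  univ.filter (fun y => y ∉ X ∧ ∃ x ∈ X, G.Adj y x)

lemma mem_nb {G : SimpleGraph V} {X : Finset V} {y : V} :
    y ∈ nb G X ↔ y ∉ X ∧ ∃ x ∈ X, G.Adj y x := by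
  classical
  simp [nb]

/-- cut-connectedness -/
def Conn (G : SimpleGraph V) (D : Finset V) : Prop :=
  ∀ A ⊆ D, A.Nonempty → (D \ A).Nonempty → ∃ a ∈ A, ∃ b ∈ D \ A, G.Adj a b

/-- no outside vertex has exactly one neighbour inside -/
def Frt (G : SimpleGraph V) (D : Finset V) : Prop :=
  ∀ y, y ∉ D → ∀ t ∈ D, G.Adj y t → ∃ t' ∈ D, t' ≠ t ∧ G.Adj y t'

omit [Fintype V] in
lemma conn_union {G : SimpleGraph V} {M X : Finset V} {v : V} (hM : Conn G M) (hX : Conn G X)
    (hvM : v ∈ M) (hvX : v ∈ X) : Conn G (M ∪ X) := by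
  intro A hA hne hcompl
  by_cases h1 : (A ∩ M).Nonempty ∧ (M \ (A ∩ M)).Nonempty
  · obtain ⟨a, ha, b, hb, hab⟩ := hM (A ∩ M) inter_subset_right h1.1 h1.2
    simp only [mem_inter, mem_sdiff, not_and] at ha hb
    refine ⟨a, ha.1, b, ?_, hab⟩
    simp only [mem_sdiff, mem_union]
    exact ⟨Or.inl hb.1, fun h => hb.2 h hb.1⟩
  by_cases h2 : (A ∩ X).Nonempty ∧ (X \ (A ∩ X)).Nonempty
  · obtain ⟨a, ha, b, hb, hab⟩ := hX (A ∩ X) inter_subset_right h2.1 h2.2
    simp only [mem_inter, mem_sdiff, not_and] at ha hb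
    refine ⟨a, ha.1, b, ?_, hab⟩
    simp only [mem_sdiff, mem_union]
    exact ⟨Or.inr hb.1, fun h => hb.2 h hb.1⟩
  exfalso
  obtain ⟨a, ha⟩ := hne
  obtain ⟨b, hb⟩ := hcompl
  simp only [mem_sdiff, mem_union] at hb
  have keyM : ∀ x ∈ M, ∀ y ∈ M, x ∈ A → y ∈ A := by
    intro x hx y hy hxA
    by_contra hyA
    exact h1 ⟨⟨x, mem_inter.2 ⟨hxA, hx⟩⟩, ⟨y, by simp [hy, hyA]⟩⟩
  have keyX : ∀ x ∈ X, ∀ y ∈ X, x ∈ A → y ∈ A := by
    intro x hx y hy hxA
    by_contra hyA
    exact h2 ⟨⟨x, mem_inter.2 ⟨hxA, hx⟩⟩, ⟨y, by simp [hy, hyA]⟩⟩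
  have hvA : v ∈ A := by
    rcases mem_union.1 (hA ha) with h | h
    · exact keyM a h v hvM ha
    · exact keyX a h v hvX ha
  rcases hb.1 with h | h
  · exact hb.2 (keyM v hvM b h hvA)
  · exact hb.2 (keyX v hvX b h hvA)

omit [Fintype V] in
lemma frt_union {G : SimpleGraph V} {M X : Finset V} (hM : Frt G M) (hX : Frt G X) :
    Frt G (M ∪ X) := by
  intro y hy t ht hyt
  simp only [mem_union, not_or] at hy
  rcases mem_union.1 ht with h | h
  · obtain ⟨t', h1, h2, h3⟩ := hM y hy.1 t h hyt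
    exact ⟨t', mem_union_left _ h1, h2, h3⟩
  · obtain ⟨t', h1, h2, h3⟩ := hX y hy.2 t h hyt
    exact ⟨t', mem_union_right _ h1, h2, h3⟩

/-- Data of the extremal set `X`. -/
structure Ext (G : SimpleGraph V) (S X : Finset V) : Prop where
  ne : X.Nonempty
  disj : ∀ x ∈ X, x ∉ S
  min1 : ∀ Y : Finset V, Y.Nonempty → (∀ x ∈ Y, x ∉ S) → (nb G X).card ≤ (nb G Y).card
  min2 : ∀ Y : Finset V, Y.Nonempty → (∀ x ∈ Y, x ∉ S) → Y.card < X.card →
    (nb G X).card < (nb G Y).card

lemma exists_ext (G : SimpleGraph V) (S : Finset V) (hne : ∃ v, v ∉ S) : ∃ X, Ext G S X := by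
  classical
  let f : Finset V → ℕ := fun X => (nb G X).card * (Fintype.card V + 1) + X.card
  have hne' : ((univ : Finset (Finset V)).filter
      (fun Y => Y.Nonempty ∧ ∀ x ∈ Y, x ∉ S)).Nonempty := by
    obtain ⟨v, hv⟩ := hne
    exact ⟨{v}, by simp [hv]⟩
  obtain ⟨X, hX, hmin⟩ := exists_min_image _ f hne'
  simp only [mem_filter, mem_univ, true_and] at hX hmin
  refine ⟨X, hX.1, hX.2, ?_, ?_⟩
  · intro Y hY hYS
    have := hmin Y ⟨hY, hYS⟩
    by_contra hlt
    push Not at hlt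
    have h1 : Y.card ≤ Fintype.card V := card_le_univ Y
    have h2 : ((nb G Y).card + 1) * (Fintype.card V + 1) ≤
        (nb G X).card * (Fintype.card V + 1) := Nat.mul_le_mul_right _ hlt
    simp only [f] at this
    nlinarith
  · intro Y hY hYS hlt
    have := hmin Y ⟨hY, hYS⟩
    by_contra hle
    push Not at hle
    have h2 : (nb G Y).card * (Fintype.card V + 1) ≤
        (nb G X).card * (Fintype.card V + 1) := Nat.mul_le_mul_right _ hle
    simp only [f] at this
    omega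

lemma Ext.conn {G : SimpleGraph V} {S X : Finset V} (h : Ext G S X) : Conn G X := by
  intro A hA hne hcompl
  by_contra hcon
  push Not at hcon
  have h1 : nb G A ⊆ nb G X := by
    intro y hy
    rw [mem_nb] at hy ⊢
    obtain ⟨hyA, x, hx, hyx⟩ := hy
    refine ⟨fun hyX => ?_, x, hA hx, hyx⟩
    exact hcon x hx y (mem_sdiff.2 ⟨hyX, hyA⟩) hyx.symm
  have h2 := card_le_card h1
  have h3 : A.card < X.card := by
    apply card_lt_card
    refine ⟨hA, fun hXA => ?_⟩
    obtain ⟨b, hb⟩ := hcompl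
    rw [mem_sdiff] at hb
    exact hb.2 (hXA hb.1)
  have := h.min2 A hne (fun x hx => h.disj x (hA hx)) h3
  omega

lemma nb_singleton_card (G : SimpleGraph V) [DecidableRel G.Adj] (t : V) :
    (nb G {t}).card = G.degree t := by
  rw [← G.card_neighborFinset_eq_degree]
  congr 1
  ext y
  rw [mem_nb, SimpleGraph.mem_neighborFinset]
  simp only [mem_singleton, exists_eq_left]
  exact ⟨fun h => h.2.symm, fun h => ⟨fun e => by subst e; exact G.loopless.irrefl _ h, h.symm⟩⟩

lemma Ext.card_le {G : SimpleGraph V} {S X : Finset V} (h : Ext G S X) :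
    (nb G X).card ≤ S.card := by
  classical
  have hne : (Sᶜ : Finset V).Nonempty := by
    obtain ⟨x, hx⟩ := h.ne
    exact ⟨x, mem_compl.2 (h.disj x hx)⟩
  refine (h.min1 Sᶜ hne (fun x hx => mem_compl.1 hx)).trans (card_le_card ?_)
  intro y hy
  rw [mem_nb] at hy
  by_contra hyS
  exact hy.1 (mem_compl.2 hyS)

lemma Ext.two {G : SimpleGraph V} [DecidableRel G.Adj] {S X : Finset V} (h : Ext G S X)
    (hS : S.card < G.minDegree) {v : V} (hv : v ∈ X) : (X \ {v}).Nonempty := by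
  rw [nonempty_iff_ne_empty]
  intro he
  have hX : X = {v} := by
    ext x
    constructor
    · intro hx
      by_contra hxv
      have : x ∈ X \ {v} := mem_sdiff.2 ⟨hx, hxv⟩
      rw [he] at this
      simp at this
    · intro hx
      rw [mem_singleton] at hx
      rwa [hx]
  have h1 := h.card_le
  rw [hX, nb_singleton_card] at h1
  have := G.minDegree_le_degree v
  omega

lemma Ext.frt {G : SimpleGraph V} [DecidableRel G.Adj] {S X : Finset V} (h : Ext G S X)
    (hS : S.card < G.minDegree) : Frt G X := by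
  intro y hy t ht hyt
  by_contra hcon
  push Not at hcon
  have h1 : nb G (X \ {t}) ⊆ insert t ((nb G X).erase y) := by
    intro z hz
    rw [mem_nb] at hz
    obtain ⟨hz1, x, hx, hzx⟩ := hz
    rw [mem_sdiff, mem_singleton] at hx
    by_cases hzt : z = t
    · exact mem_insert.2 (Or.inl hzt)
    · have hzX : z ∉ X := fun hzX => hz1 (mem_sdiff.2 ⟨hzX, by simpa using hzt⟩)
      refine mem_insert.2 (Or.inr (mem_erase.2 ⟨?_, mem_nb.2 ⟨hzX, x, hx.1, hzx⟩⟩))
      rintro rfl
      exact hcon x hx.1 hx.2 hzx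
  have hymem : y ∈ nb G X := mem_nb.2 ⟨hy, t, ht, hyt⟩
  have h2 : (nb G (X \ {t})).card ≤ (nb G X).card := by
    refine (card_le_card h1).trans ((card_insert_le _ _).trans ?_)
    rw [card_erase_of_mem hymem]
    have : 0 < (nb G X).card := card_pos.2 ⟨y, hymem⟩
    omega
  have h3 : (X \ {t}).card < X.card := by
    apply card_lt_card
    refine ⟨sdiff_subset, fun hc => ?_⟩
    have := hc ht
    simp at this
  have := h.min2 (X \ {t}) (h.two hS ht) (fun x hx => h.disj x (mem_sdiff.1 hx).1) h3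
  omega

/-- A state of the forcing process inside `X`. -/
structure St (G : SimpleGraph V) (X D R P : Finset V) : Prop where
  RX : R ⊆ X
  ne : (X \ R).Nonempty
  Rne : R.Nonempty
  PX : P ⊆ nb G X ∪ R
  PD : ∀ p ∈ P, p ∉ D \ R
  card : P.card + 1 = R.card
  clean : ∀ p ∈ P, ∀ w ∈ D \ R, ¬ G.Adj p w

lemma St.full {G : SimpleGraph V} {S X D R P : Finset V} (hX : Ext G S X) (hXD : X ⊆ D)
    (h : St G X D R P) {K : Finset V} (hK : K ⊆ X \ R) (hKne : K.Nonempty)
    (hcl : ∀ a ∈ K, ∀ b ∈ (X \ R) \ K, ¬ G.Adj a b) : nb G K = (nb G X ∪ R) \ P := by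
  have hsub : nb G K ⊆ (nb G X ∪ R) \ P := by
    intro y hy
    rw [mem_nb] at hy
    obtain ⟨hyK, x, hx, hyx⟩ := hy
    have hxX := (mem_sdiff.1 (hK hx))
    rw [mem_sdiff, mem_union]
    refine ⟨?_, fun hyP => ?_⟩
    · by_cases hyX : y ∈ X
      · right
        by_contra hyR
        exact hcl x hx y (mem_sdiff.2 ⟨mem_sdiff.2 ⟨hyX, hyR⟩, hyK⟩) hyx.symm
      · left
        exact mem_nb.2 ⟨hyX, x, hxX.1, hyx⟩
    · exact h.clean y hyP x (mem_sdiff.2 ⟨hXD hxX.1, hxX.2⟩) hyx
  have hKX : K.card < X.card := by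
    apply card_lt_card
    refine ⟨fun x hx => (mem_sdiff.1 (hK hx)).1, fun hc => ?_⟩
    obtain ⟨r, hr⟩ := h.Rne
    exact (mem_sdiff.1 (hK (hc (h.RX hr)))).2 hr
  have h1 := hX.min2 K hKne (fun x hx => hX.disj x (mem_sdiff.1 (hK hx)).1) hKX
  refine eq_of_subset_of_card_le hsub ?_
  have h2 : ((nb G X ∪ R) \ P).card + P.card = (nb G X ∪ R).card := card_sdiff_add_card_eq_card h.PX
  have h3 : (nb G X ∪ R).card ≤ (nb G X).card + R.card := card_union_le _ _
  have := h.card
  omega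

lemma St.conn {G : SimpleGraph V} {S X D R P : Finset V} (hX : Ext G S X) (hXD : X ⊆ D)
    (hD : Conn G D) {u : V} (huD : u ∈ D) (huX : u ∉ X) (h : St G X D R P) :
    Conn G (D \ R) := by
  -- a vertex of `D \ X` adjacent to `X`
  obtain ⟨z, hzD, hzX, hzN⟩ : ∃ z ∈ D, z ∉ X ∧ z ∈ nb G X := by
    obtain ⟨a, ha, b, hb, hab⟩ := hD X hXD hX.ne ⟨u, mem_sdiff.2 ⟨huD, huX⟩⟩
    rw [mem_sdiff] at hb
    exact ⟨b, hb.1, hb.2, mem_nb.2 ⟨hb.2, a, ha, hab.symm⟩⟩
  -- every such vertex is adjacent to every closed part of `X \ R`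
  have key : ∀ K ⊆ X \ R, K.Nonempty → (∀ a ∈ K, ∀ b ∈ (X \ R) \ K, ¬ G.Adj a b) →
      ∀ z ∈ D, z ∈ nb G X → ∃ k ∈ K, G.Adj z k := by
    intro K hK hKne hcl z hz hzN
    have hfull := h.full hX hXD hK hKne hcl
    have hzm : z ∈ (nb G X ∪ R) \ P := by
      refine mem_sdiff.2 ⟨mem_union_left _ hzN, fun hzP => ?_⟩
      refine h.PD z hzP (mem_sdiff.2 ⟨hz, fun hzR => ?_⟩)
      exact (mem_nb.1 hzN).1 (h.RX hzR)
    rw [← hfull, mem_nb] at hzm
    obtain ⟨_, k, hk, hzk⟩ := hzm
    exact ⟨k, hk, hzk⟩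
  -- main claim, for a side meeting `X \ R`
  have main : ∀ A ⊆ D \ R, (A ∩ (X \ R)).Nonempty → ((D \ R) \ A).Nonempty →
      (∀ a ∈ A, ∀ b ∈ (D \ R) \ A, ¬ G.Adj a b) → False := by
    intro A hA hAne hBne hcl
    have hXDR : X \ R ⊆ D \ R := sdiff_subset_sdiff hXD (le_refl _)
    have c1 : ∀ a ∈ A ∩ (X \ R), ∀ b ∈ (X \ R) \ (A ∩ (X \ R)), ¬ G.Adj a b := by
      intro a ha b hb
      rw [mem_inter] at ha
      rw [mem_sdiff, mem_inter, not_and] at hb
      exact hcl a ha.1 b (mem_sdiff.2 ⟨hXDR hb.1, fun hbA => hb.2 hbA hb.1⟩)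
    have hZA : ∀ z ∈ D, z ∈ nb G X → z ∈ A := by
      intro z hz hzN
      obtain ⟨k, hk, hzk⟩ := key _ inter_subset_right hAne c1 z hz hzN
      by_contra hzA
      have hzDR : z ∈ D \ R := mem_sdiff.2 ⟨hz, fun hzR => (mem_nb.1 hzN).1 (h.RX hzR)⟩
      exact hcl k (mem_inter.1 hk).1 z (mem_sdiff.2 ⟨hzDR, hzA⟩) hzk.symm
    by_cases hB : ((X \ R) \ A).Nonempty
    · have c2 : ∀ a ∈ (X \ R) \ A, ∀ b ∈ (X \ R) \ ((X \ R) \ A), ¬ G.Adj a b := by
        intro a ha b hb hab
        rw [mem_sdiff] at ha hb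
        have hbA : b ∈ A := by
          by_contra hbA
          exact hb.2 (mem_sdiff.2 ⟨hb.1, hbA⟩)
        exact hcl b hbA a (mem_sdiff.2 ⟨hXDR ha.1, ha.2⟩) hab.symm
      obtain ⟨k, hk, hzk⟩ := key _ sdiff_subset hB c2 z hzD hzN
      rw [mem_sdiff] at hk
      exact hcl z (hZA z hzD hzN) k (mem_sdiff.2 ⟨hXDR hk.1, hk.2⟩) hzk
    · rw [not_nonempty_iff_eq_empty] at hB
      have hBX : ∀ b ∈ (D \ R) \ A, b ∉ X := by
        intro b hb hbX
        rw [mem_sdiff, mem_sdiff] at hb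
        have : b ∈ (X \ R) \ A := mem_sdiff.2 ⟨mem_sdiff.2 ⟨hbX, hb.1.2⟩, hb.2⟩
        rw [hB] at this
        simp at this
      have hne2 : (D \ ((D \ R) \ A)).Nonempty := by
        obtain ⟨a, ha⟩ := hAne
        rw [mem_inter] at ha
        refine ⟨a, mem_sdiff.2 ⟨(mem_sdiff.1 (hA ha.1)).1, fun hc => (mem_sdiff.1 hc).2 ha.1⟩⟩
      obtain ⟨b, hb, c, hc, hbc⟩ := hD ((D \ R) \ A)
        (fun x hx => (mem_sdiff.1 (mem_sdiff.1 hx).1).1) hBne hne2
      rw [mem_sdiff] at hc
      have hb' := mem_sdiff.1 hb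
      by_cases hcR : c ∈ R
      · have hbN : b ∈ nb G X := mem_nb.2 ⟨hBX b hb, c, h.RX hcR, hbc⟩
        exact hb'.2 (hZA b (mem_sdiff.1 hb'.1).1 hbN)
      · have hcA : c ∈ A := by
          by_contra hcA
          exact hc.2 (mem_sdiff.2 ⟨mem_sdiff.2 ⟨hc.1, hcR⟩, hcA⟩)
        exact hcl c hcA b hb hbc.symm
  intro A hA hAne hBne
  by_contra hcon
  push Not at hcon
  by_cases hAX : (A ∩ (X \ R)).Nonempty
  · exact main A hA hAX hBne hcon
  · refine main ((D \ R) \ A) sdiff_subset ?_ ?_ ?_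
    · obtain ⟨w, hw⟩ := h.ne
      have hw' := mem_sdiff.1 hw
      refine ⟨w, mem_inter.2 ⟨mem_sdiff.2 ⟨mem_sdiff.2 ⟨hXD hw'.1, hw'.2⟩, fun hwA => ?_⟩, hw⟩⟩
      exact hAX ⟨w, mem_inter.2 ⟨hwA, hw⟩⟩
    · obtain ⟨a, ha⟩ := hAne
      exact ⟨a, mem_sdiff.2 ⟨hA ha, fun hc => (mem_sdiff.1 hc).2 ha⟩⟩
    · intro a ha b hb hab
      rw [mem_sdiff] at hb
      have hbA : b ∈ A := by
        by_contra hbA
        exact hb.2 (mem_sdiff.2 ⟨hb.1, hbA⟩)
      exact hcon b hbA a ha hab.symm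

/-- One step of the process. -/
lemma St.step {G : SimpleGraph V} [DecidableRel G.Adj] {S X D R P : Finset V} (hX : Ext G S X)
    (hXD : X ⊆ D) (hm : (nb G X).card + 1 < G.minDegree) (hDf : Frt G D)
    (h : St G X D R P) (hnf : ¬ Frt G (D \ R)) :
    ∃ R' P', St G X D R' P' ∧ R'.card = R.card + 1 ∧ R ⊆ R' := by
  simp only [Frt, not_forall] at hnf
  obtain ⟨y, hy, t, ht, hyt, hcon⟩ := hnf
  push Not at hcon
  have hyP : y ∉ P := fun hyP => h.clean y hyP t ht hyt
  have ht' := mem_sdiff.1 ht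
  have hyNR : y ∈ nb G X ∪ R := by
    by_cases hyR : y ∈ R
    · exact mem_union_right _ hyR
    · have hyD : y ∉ D := fun hyD => hy (mem_sdiff.2 ⟨hyD, hyR⟩)
      obtain ⟨r, hr, hrt, hyr⟩ := hDf y hyD t ht'.1 hyt
      have hrR : r ∈ R := by
        by_contra hrR
        exact hcon r (mem_sdiff.2 ⟨hr, hrR⟩) hrt hyr
      exact mem_union_left _ (mem_nb.2 ⟨fun hyX => hyD (hXD hyX), r, h.RX hrR, hyr⟩)
  have hfull := h.full hX hXD (K := X \ R) (le_refl _) h.ne (by simp)
  have hyK : y ∈ nb G (X \ R) := by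
    rw [hfull]
    exact mem_sdiff.2 ⟨hyNR, hyP⟩
  obtain ⟨_, k, hk, hyk⟩ := mem_nb.1 hyK
  have hk' := mem_sdiff.1 hk
  have hkt : k = t := by
    by_contra hkt
    exact hcon k (mem_sdiff.2 ⟨hXD hk'.1, hk'.2⟩) hkt hyk
  have htX : t ∈ X := hkt ▸ hk'.1
  refine ⟨insert t R, insert y P, ?_, card_insert_of_notMem ht'.2, subset_insert _ _⟩
  refine ⟨?_, ?_, ⟨t, mem_insert_self _ _⟩, ?_, ?_, ?_, ?_⟩
  · exact insert_subset htX h.RX
  · rw [nonempty_iff_ne_empty]
    intro he
    have hW : X \ R = {t} := by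
      ext x
      rw [mem_singleton]
      constructor
      · intro hx
        by_contra hxt
        have : x ∈ X \ insert t R := by
          rw [mem_sdiff, mem_insert] at *
          exact ⟨hx.1, fun hc => hc.elim hxt hx.2⟩
        rw [he] at this
        simp at this
      · rintro rfl
        exact mem_sdiff.2 ⟨htX, ht'.2⟩
    have h1 : (nb G (X \ R)).card = G.degree t := by rw [hW, nb_singleton_card]
    have h2 := G.minDegree_le_degree t
    rw [hfull] at h1
    have h3 : ((nb G X ∪ R) \ P).card + P.card = (nb G X ∪ R).card :=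
      card_sdiff_add_card_eq_card h.PX
    have h4 : (nb G X ∪ R).card ≤ (nb G X).card + R.card := card_union_le _ _
    have := h.card
    omega
  · intro p hp
    rw [mem_insert] at hp
    rcases hp with rfl | hp
    · rcases mem_union.1 hyNR with h' | h'
      · exact mem_union_left _ h'
      · exact mem_union_right _ (mem_insert_of_mem h')
    · rcases mem_union.1 (h.PX hp) with h' | h'
      · exact mem_union_left _ h'
      · exact mem_union_right _ (mem_insert_of_mem h')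
  · intro p hp hpD
    rw [mem_insert] at hp
    rw [mem_sdiff, mem_insert, not_or] at hpD
    rcases hp with rfl | hp
    · exact hy (mem_sdiff.2 ⟨hpD.1, hpD.2.2⟩)
    · exact h.PD p hp (mem_sdiff.2 ⟨hpD.1, hpD.2.2⟩)
  · rw [card_insert_of_notMem hyP, card_insert_of_notMem ht'.2, h.card]
  · intro p hp w hw
    rw [mem_insert] at hp
    rw [mem_sdiff, mem_insert, not_or] at hw
    rcases hp with rfl | hp
    · exact hcon w (mem_sdiff.2 ⟨hw.1, hw.2.2⟩) hw.2.1
    · exact h.clean p hp w (mem_sdiff.2 ⟨hw.1, hw.2.2⟩)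

lemma exists_avoiding_small {G : SimpleGraph V} [DecidableRel G.Adj] {S X D : Finset V}
    (hX : Ext G S X) (hXD : X ⊆ D) (hm : (nb G X).card + 1 < G.minDegree) (hDf : Frt G D)
    {v : V} (hv : v ∈ X) (hX2 : (X \ {v}).Nonempty) :
    ∃ R P, St G X D R P ∧ v ∈ R ∧ Frt G (D \ R) := by
  by_contra hcon
  push Not at hcon
  have : ∀ k : ℕ, ∃ R P, St G X D R P ∧ v ∈ R ∧ R.card = k + 1 := by
    intro k
    induction k with
    | zero =>
      refine ⟨{v}, ∅, ⟨by simpa using hv, hX2, by simp, by simp, by simp, by simp, by simp⟩,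
        by simp, by simp⟩
    | succ k ih =>
      obtain ⟨R, P, hst, hvR, hc⟩ := ih
      obtain ⟨R', P', h1, h2, h3⟩ := hst.step hX hXD hm hDf (hcon R P hst hvR)
      exact ⟨R', P', h1, h3 hvR, by omega⟩
  obtain ⟨R, P, hst, -, hc⟩ := this X.card
  have := card_le_card hst.RX
  omega

/-- The combinatorial core: a `Z₊Ir`-set with fewer than `δ` elements can be enlarged. -/
lemma core (G : SimpleGraph V) [DecidableRel G.Adj] (S : Finset V) (hS : S.card < G.minDegree) :
    ∃ v, v ∉ S ∧ (∃ X, Conn G X ∧ Frt G X ∧ v ∈ X ∧ ∀ x ∈ X, x ∉ S) ∧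
      ∀ u ∈ S, (∃ M, Conn G M ∧ Frt G M ∧ u ∈ M ∧ ∀ x ∈ M, x ∈ S → x = u) →
        ∃ M, Conn G M ∧ Frt G M ∧ u ∈ M ∧ v ∉ M ∧ ∀ x ∈ M, x ∈ S → x = u := by
  have hne : ∃ v, v ∉ S := by
    by_contra hcon
    push Not at hcon
    have h1 : S = univ := by
      ext x; simp [hcon x]
    rw [h1, card_univ] at hS
    by_cases hV : Nonempty V
    · obtain ⟨x⟩ := hV
      have := G.minDegree_le_degree x
      have := G.degree_lt_card_verts x
      omega
    · rw [not_nonempty_iff] at hV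
      have : G.minDegree = 0 := by
        simp [SimpleGraph.minDegree]
      omega
  obtain ⟨X, hX⟩ := exists_ext G S hne
  obtain ⟨v, hv⟩ := hX.ne
  refine ⟨v, hX.disj v hv, ⟨X, hX.conn, hX.frt hS, hv, hX.disj⟩, ?_⟩
  intro u hu ⟨M, hMc, hMf, huM, hMS⟩
  by_cases hvM : v ∈ M
  swap
  · exact ⟨M, hMc, hMf, huM, hvM, hMS⟩
  have huX : u ∉ X := fun h => hX.disj u h hu
  have hX2 := hX.two hS hv
  by_cases hm : (nb G X).card + 1 < G.minDegree
  · have hDc : Conn G (M ∪ X) := conn_union hMc hX.conn hvM hv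
    have hDf : Frt G (M ∪ X) := frt_union hMf (hX.frt hS)
    have huD : u ∈ M ∪ X := mem_union_left _ huM
    obtain ⟨R, P, hst, hvR, hfr⟩ := exists_avoiding_small hX subset_union_right hm hDf hv hX2
    refine ⟨(M ∪ X) \ R, hst.conn hX subset_union_right hDc huD huX, hfr, ?_, ?_, ?_⟩
    · exact mem_sdiff.2 ⟨huD, fun h => huX (hst.RX h)⟩
    · exact fun h => (mem_sdiff.1 h).2 hvR
    · intro x hx hxS
      rw [mem_sdiff, mem_union] at hx
      rcases hx.1 with h | h
      · exact hMS x h hxS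
      · exact absurd hxS (hX.disj x h)
  · have hle := hX.card_le
    have hSu : (S.erase u).card + 1 = S.card := card_erase_add_one hu
    have hcount : ∀ y ∈ S.erase u, ∀ T : Finset V, T.card ≤ 1 →
        ∃ a b, a ≠ b ∧ a ∉ S.erase u ∧ b ∉ S.erase u ∧ a ∉ T ∧ b ∉ T ∧ G.Adj y a ∧ G.Adj y b := by
      intro y hy T hT
      have h1 : 1 < (G.neighborFinset y \ (((S.erase u).erase y) ∪ T)).card := by
        have h2 := G.minDegree_le_degree y
        rw [← G.card_neighborFinset_eq_degree] at h2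
        have h3 := le_card_sdiff (((S.erase u).erase y) ∪ T) (G.neighborFinset y)
        have h4 := card_union_le ((S.erase u).erase y) T
        have h5 := card_erase_add_one hy
        omega
      obtain ⟨a, ha, b, hb, hab⟩ := one_lt_card.1 h1
      simp only [mem_sdiff, mem_union, not_or, SimpleGraph.mem_neighborFinset] at ha hb
      have hya : a ≠ y := fun e => G.loopless.irrefl _ (e ▸ ha.1)
      have hyb : b ≠ y := fun e => G.loopless.irrefl _ (e ▸ hb.1)
      exact ⟨a, b, hab, fun h => ha.2.1 (mem_erase.2 ⟨hya, h⟩),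
        fun h => hb.2.1 (mem_erase.2 ⟨hyb, h⟩), ha.2.2, hb.2.2, ha.1, hb.1⟩
    have hDc : Conn G (S.erase u)ᶜ := by
      have aux : ∀ A ⊆ (S.erase u)ᶜ, A.Nonempty → u ∉ A →
          (∀ a ∈ A, ∀ b ∈ (S.erase u)ᶜ \ A, ¬ G.Adj a b) → False := by
        intro A hA hAne huA hcl
        have hAS : ∀ x ∈ A, x ∉ S := by
          intro x hx hxS
          have := mem_compl.1 (hA hx)
          exact this (mem_erase.2 ⟨fun e => huA (e ▸ hx), hxS⟩)
        have h1 := hX.min1 A hAne hAS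
        have h2 : nb G A ⊆ S.erase u := by
          intro y hy
          rw [mem_nb] at hy
          obtain ⟨hyA, x, hx, hyx⟩ := hy
          by_contra hyS
          exact hcl x hx y (mem_sdiff.2 ⟨mem_compl.2 hyS, hyA⟩) hyx.symm
        have h3 := card_le_card h2
        omega
      intro A hA hAne hBne
      by_contra hcon
      push Not at hcon
      by_cases huA : u ∈ A
      · refine aux ((S.erase u)ᶜ \ A) sdiff_subset hBne (fun h => (mem_sdiff.1 h).2 huA) ?_
        intro a ha b hb hab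
        rw [mem_sdiff] at hb
        have hbA : b ∈ A := by
          by_contra hbA
          exact hb.2 (mem_sdiff.2 ⟨hb.1, hbA⟩)
        exact hcon b hbA a ha hab.symm
      · exact aux A hA hAne huA hcon
    have hXD : X ⊆ (S.erase u)ᶜ := by
      intro x hx
      rw [mem_compl]
      exact fun h => hX.disj x hx (mem_of_mem_erase h)
    have huD : u ∈ (S.erase u)ᶜ := by simp
    have hst : St G X (S.erase u)ᶜ {v} ∅ :=
      ⟨by simpa using hv, hX2, by simp, by simp, by simp, by simp, by simp⟩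
    refine ⟨(S.erase u)ᶜ \ {v}, hst.conn hX hXD hDc huD huX, ?_, ?_, by simp, ?_⟩
    · intro y hy t ht hyt
      by_cases hyS : y ∈ S.erase u
      · obtain ⟨a, b, hab, ha1, hb1, ha2, hb2, hya, hyb⟩ := hcount y hyS {v} (by simp)
        by_cases hat : a = t
        · refine ⟨b, mem_sdiff.2 ⟨mem_compl.2 hb1, hb2⟩, fun e => hab (hat.trans e.symm), hyb⟩
        · exact ⟨a, mem_sdiff.2 ⟨mem_compl.2 ha1, ha2⟩, hat, hya⟩
      · have hyv : y = v := by
          by_contra hyv
          exact hy (mem_sdiff.2 ⟨mem_compl.2 hyS, by simpa using hyv⟩)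
        subst hyv
        have h1 : 1 < (G.neighborFinset y \ (S.erase u)).card := by
          have h2 := G.minDegree_le_degree y
          rw [← G.card_neighborFinset_eq_degree] at h2
          have h3 := le_card_sdiff (S.erase u) (G.neighborFinset y)
          omega
        obtain ⟨a, ha, b, hb, hab⟩ := one_lt_card.1 h1
        simp only [mem_sdiff, SimpleGraph.mem_neighborFinset] at ha hb
        have hya : a ≠ y := fun e => G.loopless.irrefl _ (e ▸ ha.1)
        have hyb : b ≠ y := fun e => G.loopless.irrefl _ (e ▸ hb.1)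
        by_cases hat : a = t
        · exact ⟨b, mem_sdiff.2 ⟨mem_compl.2 hb.2, by simpa using hyb⟩,
            fun e => hab (hat.trans e.symm), hb.1⟩
        · exact ⟨a, mem_sdiff.2 ⟨mem_compl.2 ha.2, by simpa using hya⟩, hat, ha.1⟩
    · refine mem_sdiff.2 ⟨huD, ?_⟩
      rw [mem_singleton]
      exact fun e => huX (e ▸ hv)
    · intro x hx hxS
      by_contra hxu
      exact mem_compl.1 (mem_sdiff.1 hx).1 (mem_erase.2 ⟨hxu, hxS⟩)

end Core

section Bridge

variable {V : Type*} [Fintype V] [DecidableEq V]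

omit [Fintype V] in
/-- A cut-connected nonempty set with the fort property is a PSD fort. -/
lemma isPSDFort_of {G : SimpleGraph V} {M : Finset V} {u : V} (hc : Conn G M) (hf : Frt G M)
    (hu : u ∈ M) : IsPSDFort G (M : Set V) := by
  classical
  refine ⟨⟨u, hu⟩, ?_⟩
  intro y hy W
  -- the component is everything
  have hW : (Subtype.val '' W.supp : Set V) = (M : Set V) := by
    by_contra hne
    have hsub : (Subtype.val '' W.supp : Set V) ⊆ (M : Set V) := by
      rintro _ ⟨x, _, rfl⟩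
      exact x.2
    let A : Finset V := M.filter (fun x => x ∈ (Subtype.val '' W.supp : Set V))
    have hA : A ⊆ M := filter_subset _ _
    obtain ⟨w, hw⟩ := W.nonempty_supp
    have hAne : A.Nonempty := ⟨w.1, mem_filter.2 ⟨w.2, ⟨w, hw, rfl⟩⟩⟩
    have hBne : (M \ A).Nonempty := by
      by_contra hB
      rw [not_nonempty_iff_eq_empty, sdiff_eq_empty_iff_subset] at hB
      apply hne
      apply Set.Subset.antisymm hsub
      intro x hx
      exact (mem_filter.1 (hB hx)).2
    obtain ⟨a, ha, b, hb, hab⟩ := hc A hA hAne hBne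
    obtain ⟨haM, a', ha', haa⟩ := mem_filter.1 ha
    have hbM := (mem_sdiff.1 hb).1
    apply (mem_sdiff.1 hb).2
    refine mem_filter.2 ⟨hbM, ⟨⟨b, hbM⟩, ?_, rfl⟩⟩
    rw [SimpleGraph.ConnectedComponent.mem_supp_iff] at ha' ⊢
    rw [← ha']
    apply SimpleGraph.ConnectedComponent.sound
    apply SimpleGraph.Adj.reachable
    rw [SimpleGraph.comap_adj]
    simp only [Function.Embedding.subtype_apply]
    rw [haa]
    exact hab.symm
  rw [hW]
  intro hcard
  rw [Set.ncard_eq_one] at hcard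
  obtain ⟨t, ht⟩ := hcard
  have htm : t ∈ G.neighborSet y ∩ (M : Set V) := by rw [ht]; rfl
  obtain ⟨t', ht', htt, hyt'⟩ := hf y hy t htm.2 htm.1
  have : t' ∈ G.neighborSet y ∩ (M : Set V) := ⟨hyt', ht'⟩
  rw [ht] at this
  exact htt this

/-- The component of `u` in a PSD fort. -/
lemma exists_component {G : SimpleGraph V} {F : Set V} {u : V} (hF : IsPSDFort G F) (hu : u ∈ F) :
    ∃ M : Finset V, Conn G M ∧ Frt G M ∧ u ∈ M ∧ (M : Set V) ⊆ F := by
  classical
  let W := (G.induce F).connectedComponentMk ⟨u, hu⟩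
  let M : Finset V := univ.filter (fun x => x ∈ (Subtype.val '' W.supp : Set V))
  have hmem : ∀ x, x ∈ M ↔ ∃ h : x ∈ F, (G.induce F).Reachable ⟨x, h⟩ ⟨u, hu⟩ := by
    intro x
    simp only [M, mem_filter, mem_univ, true_and, Set.mem_image, Subtype.exists,
      exists_and_right, exists_eq_right, W, SimpleGraph.ConnectedComponent.mem_supp_iff,
      SimpleGraph.ConnectedComponent.eq]
  have hMW : (M : Set V) = Subtype.val '' W.supp := by
    ext x; simp [M]
  refine ⟨M, ?_, ?_, ?_, ?_⟩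
  · intro A hA hAne hBne
    obtain ⟨a, ha⟩ := hAne
    obtain ⟨b, hb⟩ := hBne
    rw [mem_sdiff] at hb
    obtain ⟨haF, har⟩ := (hmem a).1 (hA ha)
    obtain ⟨hbF, hbr⟩ := (hmem b).1 hb.1
    obtain ⟨p⟩ := har.trans hbr.symm
    obtain ⟨d, hd, h1, h2⟩ := p.exists_boundary_dart {x | x.1 ∈ A} ha hb.2
    refine ⟨d.fst.1, h1, d.snd.1, mem_sdiff.2 ⟨?_, h2⟩, d.adj⟩
    obtain ⟨h3, h4⟩ := (hmem d.fst.1).1 (hA h1)
    exact (hmem _).2 ⟨d.snd.2, (SimpleGraph.Adj.reachable d.adj.symm).trans h4⟩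
  · intro y hy t ht hyt
    by_cases hyF : y ∈ F
    · exfalso
      obtain ⟨h3, h4⟩ := (hmem t).1 ht
      apply hy
      refine (hmem y).2 ⟨hyF, SimpleGraph.Reachable.trans ?_ h4⟩
      apply SimpleGraph.Adj.reachable
      rw [SimpleGraph.comap_adj]
      exact hyt
    · by_contra hcon
      push Not at hcon
      apply hF.2 y hyF W
      rw [Set.ncard_eq_one]
      refine ⟨t, ?_⟩
      ext x
      rw [← hMW]
      simp only [Set.mem_inter_iff, SimpleGraph.mem_neighborSet, mem_coe, Set.mem_singleton_iff]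
      constructor
      · rintro ⟨hyx, hx⟩
        by_contra hxt
        exact hcon x hx hxt hyx
      · rintro rfl
        exact ⟨hyt, ht⟩
  · exact (hmem u).2 ⟨hu, SimpleGraph.Reachable.refl _⟩
  · intro x hx
    obtain ⟨h, _⟩ := (hmem x).1 hx
    exact h

lemma minDegree_le_of_maximal (G : SimpleGraph V) [DecidableRel G.Adj] {S : Set V}
    (hS : Maximal (IsZIrSet G) S) : G.minDegree ≤ S.ncard := by
  classical
  by_contra hlt
  push Not at hlt
  let S' : Finset V := S.toFinset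
  have hSS : ∀ x, x ∈ S' ↔ x ∈ S := fun x => by simp [S']
  have hcard : S'.card < G.minDegree := by
    rw [← Set.ncard_eq_toFinset_card']
    exact hlt
  obtain ⟨v, hvS, ⟨X, hXc, hXf, hvX, hXS⟩, hall⟩ := core G S' hcard
  have hvS' : v ∉ S := fun h => hvS ((hSS v).2 h)
  have hir : IsZIrSet G (insert v S) := by
    intro u hu
    by_cases huv : u = v
    · subst huv
      refine ⟨X, isPSDFort_of hXc hXf hvX, ?_⟩
      ext x
      simp only [Set.mem_inter_iff, Set.mem_insert_iff, mem_coe, Set.mem_singleton_iff]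
      constructor
      · rintro ⟨h1 | h1, h2⟩
        · exact h1
        · exact absurd ((hSS x).2 h1) (hXS x h2)
      · rintro rfl
        exact ⟨Or.inl rfl, hvX⟩
    · have huS : u ∈ S := (Set.mem_insert_iff.1 hu).resolve_left huv
      obtain ⟨F, hF, hSF⟩ := hS.1 u huS
      have huF : u ∈ F := by
        have : u ∈ S ∩ F := by rw [hSF]; rfl
        exact this.2
      obtain ⟨M, hMc, hMf, huM, hMF⟩ := exists_component hF huF
      obtain ⟨M', h1, h2, h3, h4, h5⟩ := hall u ((hSS u).2 huS) ⟨M, hMc, hMf, huM, by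
        intro x hx hxS
        have : x ∈ S ∩ F := ⟨(hSS x).1 hxS, hMF hx⟩
        rw [hSF] at this
        exact this⟩
      refine ⟨M', isPSDFort_of h1 h2 h3, ?_⟩
      ext x
      simp only [Set.mem_inter_iff, Set.mem_insert_iff, mem_coe, Set.mem_singleton_iff]
      constructor
      · rintro ⟨h6 | h6, h7⟩
        · subst h6
          exact absurd h7 h4
        · exact h5 x h7 ((hSS x).2 h6)
      · rintro rfl
        exact ⟨Or.inr huS, h3⟩
  have := hS.2 hir (Set.subset_insert v S) (Set.mem_insert v S)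
  exact hvS' this

end Bridge

/-- Full answer to Q1 (yes): for every finite simple graph `G` with a nonempty vertex set the
minimum degree is at most the lower PSD forcing irredundance number, `δ(G) ≤ z₊ir(G)`.
The second part says the same without `sInf`: every maximal `Z₊Ir`-set has at least `δ(G)`
elements. The third part records that `z₊ir(G)` is attained by a maximal `Z₊Ir`-set. -/
theorem result {V : Type*} [Fintype V] [Nonempty V] (G : SimpleGraph V) [DecidableRel G.Adj] :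
    G.minDegree ≤ zir G ∧
    (∀ S : Set V, Maximal (IsZIrSet G) S → G.minDegree ≤ S.ncard) ∧
    (∃ S : Set V, Maximal (IsZIrSet G) S ∧ S.ncard = zir G) := by
  classical
  have h2 : ∀ S : Set V, Maximal (IsZIrSet G) S → G.minDegree ≤ S.ncard :=
    fun S hS => minDegree_le_of_maximal G hS
  have h0 : IsZIrSet G (∅ : Set V) := fun u hu => absurd hu (by simp)
  obtain ⟨S, -, hS⟩ := Set.Finite.exists_le_maximal (Set.toFinite {S : Set V | IsZIrSet G S}) h0
  have hne : {k : ℕ | ∃ S : Set V, Maximal (IsZIrSet G) S ∧ S.ncard = k}.Nonempty :=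
    ⟨S.ncard, S, hS, rfl⟩
  have h3 : ∃ S : Set V, Maximal (IsZIrSet G) S ∧ S.ncard = zir G := Nat.sInf_mem hne
  refine ⟨?_, h2, h3⟩
  obtain ⟨S, hS, hk⟩ := h3
  rw [← hk]
  exact h2 S hS

end Pool.Agent.Results.MP_3c4d8f_co.MinDegreeLeZir
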